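import Pool.Agent.Run7.h378.PS.Stm

/-! Robinson's form is not a sum of squares. -/

set_option autoImplicit false

namespace Run7.h224.PS

open MvPolynomial Run7.h378.PS

lemma RR_deg : (2 * RR).totalDegree ≤ 2 * 3 := by
  have hX : ∀ (i : Fin 3) (n : ℕ), (X i ^ n : MvPolynomial (Fin 3) ℝ).totalDegree ≤ n := by
    intro i n
    refine (totalDegree_pow _ _).trans ?_
    rw [totalDegree_X, mul_one]
  have hC : ∀ n : ℕ, ((n : ℕ) : MvPolynomial (Fin 3) ℝ).totalDegree ≤ 0 := by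
    intro n
    rw [← map_natCast (C : ℝ →+* MvPolynomial (Fin 3) ℝ), totalDegree_C]
  have hm : ∀ (p q : MvPolynomial (Fin 3) ℝ) (a b : ℕ), p.totalDegree ≤ a → q.totalDegree ≤ b →
      (p * q).totalDegree ≤ a + b := fun p q a b h1 h2 =>
    (totalDegree_mul p q).trans (Nat.add_le_add h1 h2)
  have ha : ∀ (p q : MvPolynomial (Fin 3) ℝ) (a : ℕ), p.totalDegree ≤ a → q.totalDegree ≤ a →
      (p + q).totalDegree ≤ a := fun p q a h1 h2 => (totalDegree_add p q).trans (max_le h1 h2)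
  have hs : ∀ (p q : MvPolynomial (Fin 3) ℝ) (a : ℕ), p.totalDegree ≤ a → q.totalDegree ≤ a →
      (p - q).totalDegree ≤ a := fun p q a h1 h2 => (totalDegree_sub p q).trans (max_le h1 h2)
  have h42 : ∀ i j : Fin 3, (X i ^ 4 * X j ^ 2 : MvPolynomial (Fin 3) ℝ).totalDegree ≤ 6 :=
    fun i j => hm _ _ 4 2 (hX i 4) (hX j 2)
  have h3 : (3 * X 0 ^ 2 * X 1 ^ 2 * X 2 ^ 2 : MvPolynomial (Fin 3) ℝ).totalDegree ≤ 6 :=
    hm _ _ 4 2 (hm _ _ 2 2 (hm _ _ 0 2 (by exact_mod_cast hC 3) (hX 0 2)) (hX 1 2)) (hX 2 2)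
  have hR : (RR).totalDegree ≤ 6 := by
    unfold RR
    exact ha _ _ 6 (hs _ _ 6 (ha _ _ 6 (ha _ _ 6 (hX 0 6) (hX 1 6)) (hX 2 6))
      (ha _ _ 6 (ha _ _ 6 (ha _ _ 6 (ha _ _ 6 (ha _ _ 6 (h42 0 1) (h42 0 2)) (h42 1 0)) (h42 1 2))
        (h42 2 0)) (h42 2 1))) h3
  exact hm _ _ 0 6 (by exact_mod_cast hC 2) hR

/-- the point `(a, b, 1)` -/
def pt (a b : ℝ) : Fin 3 → ℝ := ![a, b, 1]

lemma eval_RR (a b : ℝ) : eval (pt a b) (2 * RR) =
    2 * (a ^ 6 + b ^ 6 + 1 - (a ^ 4 * b ^ 2 + a ^ 4 + b ^ 4 * a ^ 2 + b ^ 4 + a ^ 2 + b ^ 2) +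
      3 * a ^ 2 * b ^ 2) := by
  unfold RR pt
  have e3 : eval ![a, b, 1] (3 : MvPolynomial (Fin 3) ℝ) = 3 := map_ofNat _ 3
  have e2 : eval ![a, b, 1] (2 : MvPolynomial (Fin 3) ℝ) = 2 := map_ofNat _ 2
  simp only [map_add, map_sub, map_mul, map_pow, eval_X, e3, e2]
  simp only [Matrix.cons_val_zero, Matrix.cons_val_one, Matrix.cons_val]
  ring

lemma key (c : MvPolynomial (Fin 3) ℝ) (hc : c.totalDegree ≤ 3) :
    eval (pt (-1) (-1)) c - 2 * eval (pt (-1) 0) c + eval (pt (-1) 1) c -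
      2 * (eval (pt 0 (-1)) c - 2 * eval (pt 0 0) c + eval (pt 0 1) c) +
      (eval (pt 1 (-1)) c - 2 * eval (pt 1 0) c + eval (pt 1 1) c) = 0 := by
  have h : ∀ a b : ℝ, eval (pt a b) c = ∑ d ∈ c.support, c.coeff d * (a ^ d 0 * b ^ d 1) := by
    intro a b
    rw [eval_eq']
    refine Finset.sum_congr rfl fun d _ => ?_
    rw [Fin.prod_univ_three]
    simp [pt]
  simp only [h, Finset.mul_sum, ← Finset.sum_sub_distrib, ← Finset.sum_add_distrib]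
  refine Finset.sum_eq_zero fun d hd => ?_
  have h1 : d 0 + d 1 + d 2 ≤ 3 := by
    have := (le_totalDegree hd).trans hc
    rwa [Finsupp.sum_fintype _ _ (fun _ => rfl), Fin.sum_univ_three] at this
  have h2 : (d 0 = 0 ∨ d 0 = 1) ∨ (d 1 = 0 ∨ d 1 = 1) := by omega
  rcases h2 with (h | h) | (h | h) <;> rw [h] <;> ring

theorem t_G : S_G := by
  rintro hD ⟨r, q, hq⟩
  have hdeg : ∀ i, (q i).totalDegree ≤ 3 := hD 3 r 3 q (by rw [← hq]; exact RR_deg)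
  have hev : ∀ a b : ℝ, ∑ i, (eval (pt a b) (q i)) ^ 2 =
      2 * (a ^ 6 + b ^ 6 + 1 - (a ^ 4 * b ^ 2 + a ^ 4 + b ^ 4 * a ^ 2 + b ^ 4 + a ^ 2 + b ^ 2) +
      3 * a ^ 2 * b ^ 2) := by
    intro a b
    rw [← eval_RR, hq, map_sum]
    simp only [map_pow]
  have hz : ∀ a b : ℝ, 2 * (a ^ 6 + b ^ 6 + 1 - (a ^ 4 * b ^ 2 + a ^ 4 + b ^ 4 * a ^ 2 + b ^ 4 +
      a ^ 2 + b ^ 2) + 3 * a ^ 2 * b ^ 2) = 0 → ∀ i, eval (pt a b) (q i) = 0 := by
    intro a b h0 i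
    have h1 := hev a b
    rw [h0] at h1
    have h2 := (Finset.sum_eq_zero_iff_of_nonneg (fun i _ => sq_nonneg (eval (pt a b) (q i)))).1 h1
      i (Finset.mem_univ i)
    exact pow_eq_zero_iff (two_ne_zero) |>.1 h2
  have h00 : ∀ i, eval (pt 0 0) (q i) = 0 := by
    intro i
    have hk := key (q i) (hdeg i)
    rw [hz (-1) (-1) (by norm_num) i, hz (-1) 0 (by norm_num) i, hz (-1) 1 (by norm_num) i,
      hz 0 (-1) (by norm_num) i, hz 0 1 (by norm_num) i, hz 1 (-1) (by norm_num) i,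
      hz 1 0 (by norm_num) i, hz 1 1 (by norm_num) i] at hk
    linarith
  have h1 := hev 0 0
  simp only [h00] at h1
  norm_num at h1

end Run7.h224.PS
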